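import Pool.Agent.J4H13.LC.Jobs2
import Pool.Agent.J4H13.BD.KummerCorr

/-!
# The machine for extensions of a biquadratic extension
-/

set_option autoImplicit false

open MvPolynomial

namespace Pool.Agent.J4H67.LC

open Pool.Agent.J4H13.BC Pool.Agent.J4H13.BD Pool.Agent.J4H13.LC Pool.Agent.Helper397.HK

section

variable {K : Type} [Field K] [Algebra ℂ K] {F₀ : IntermediateField ℂ K}
  {E : Type} [Field E] [Algebra ℂ E] [Algebra K E] [IsScalarTower ℂ K E]

/-- the fixed ring of a subgroup containing the stabilizer of `w` -/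
theorem fix_emb [FiniteDimensional F₀ E] [IsGalois F₀ E] (w : K) (L : IntermediateField ℂ K) (hL : F₀ ≤ L)
    (hw : w ∈ L) (hE : Emb L) [SMulCommClass (E ≃ₐ[F₀] E) ℂ E] (H : Subgroup (E ≃ₐ[F₀] E))
    (hH : ∀ σ : E ≃ₐ[F₀] E, σ (algebraMap K E w) = algebraMap K E w → σ ∈ H) :
    ∃ (m : ℕ) (j : FixedPoints.subalgebra ℂ E H →ₐ[ℂ] FractionRing (PR m)), Function.Injective j := by
  obtain ⟨m, ⟨j₀⟩⟩ := hE
  have hmem : ∀ z ∈ FixedPoints.subalgebra ℂ E H, ∃ x ∈ L, algebraMap K E x = z := by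
    intro z hz
    have h1 : z ∈ IntermediateField.fixedField
        (IntermediateField.fixingSubgroup (IntermediateField.adjoin F₀ {algebraMap K E w})) := by
      rw [IntermediateField.mem_fixedField_iff]
      intro σ hσ
      have h2 : σ ∈ H := hH σ ((IntermediateField.mem_fixingSubgroup_iff _ _).1 hσ _
          (IntermediateField.mem_adjoin_simple_self F₀ _))
      exact hz ⟨σ, h2⟩
    rw [IsGalois.fixedField_fixingSubgroup] at h1
    have h3 : IntermediateField.adjoin F₀ {algebraMap K E w} ≤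
        (IntermediateField.extendScalars hL).map (IsScalarTower.toAlgHom F₀ K E) := by
      rw [IntermediateField.adjoin_simple_le_iff]
      exact ⟨w, hw, rfl⟩
    obtain ⟨x, hx, hxz⟩ := h3 h1
    exact ⟨x, hx, hxz⟩
  let f : L →ₐ[ℂ] E := (IsScalarTower.toAlgHom ℂ K E).comp L.val
  have hf : Function.Injective f := f.injective
  have hle : FixedPoints.subalgebra ℂ E H ≤ f.range := by
    intro z hz
    obtain ⟨x, hx, hxz⟩ := hmem z hz
    exact ⟨⟨x, hx⟩, hxz⟩
  let ε : FixedPoints.subalgebra ℂ E H →ₐ[ℂ] L :=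
    ((AlgEquiv.ofInjective f hf).symm : f.range →ₐ[ℂ] L).comp (Subalgebra.inclusion hle)
  refine ⟨m, j₀.comp ε, ?_⟩
  have h1 : Function.Injective j₀ := j₀.injective
  have h2 : Function.Injective ε :=
    (AlgEquiv.ofInjective f hf).symm.injective.comp (Subalgebra.inclusion_injective hle)
  exact h1.comp h2

omit [Algebra ℂ E] [IsScalarTower ℂ K E] in
theorem exists_restrict {F : IntermediateField ℂ K} {δ ν : K}
    (hF : F = F₀ ⊔ IntermediateField.adjoin ℂ ({δ, ν} : Set K)) [Normal F K] (σ : E ≃ₐ[F₀] E)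
    (h1 : σ (algebraMap K E δ) = algebraMap K E δ) (h2 : σ (algebraMap K E ν) = algebraMap K E ν) :
    ∃ τ : K ≃ₐ[F] K, ∀ x, σ (algebraMap K E x) = algebraMap K E (τ x) := by
  -- the fixed elements
  let S : Subalgebra ℂ K :=
    { carrier := {x | σ (algebraMap K E x) = algebraMap K E x}
      mul_mem' := by
        intro a b ha hb
        simp only [Set.mem_ofPred_eq] at ha hb ⊢
        rw [map_mul, map_mul, ha, hb]
      add_mem' := by
        intro a b ha hb
        simp only [Set.mem_ofPred_eq] at ha hb ⊢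
        rw [map_add, map_add, ha, hb]
      algebraMap_mem' := by
        intro r
        simp only [Set.mem_ofPred_eq]
        have e : algebraMap K E (algebraMap ℂ K r) = algebraMap F₀ E (algebraMap ℂ F₀ r) := by
          rw [IsScalarTower.algebraMap_apply F₀ K E]
          rfl
        rw [e, σ.commutes] }
  have hSinv : ∀ x ∈ S, x⁻¹ ∈ S := by
    intro x hx
    change σ (algebraMap K E x⁻¹) = algebraMap K E x⁻¹
    have hx' : σ (algebraMap K E x) = algebraMap K E x := hx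
    rw [map_inv₀, map_inv₀, hx']
  let M : IntermediateField ℂ K := S.toIntermediateField hSinv
  have hFM : F ≤ M := by
    rw [hF]
    apply sup_le
    · intro x hx
      change σ (algebraMap K E x) = algebraMap K E x
      have e : algebraMap K E x = algebraMap F₀ E ⟨x, hx⟩ := by
        rw [IsScalarTower.algebraMap_apply F₀ K E]
        rfl
      rw [e, σ.commutes]
    · rw [IntermediateField.adjoin_le_iff]
      rintro x (rfl | hx)
      · exact h1
      · rw [Set.mem_singleton_iff] at hx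
        subst hx
        exact h2
  let ϕ : E ≃ₐ[F] E := AlgEquiv.ofRingEquiv (f := (σ : E ≃+* E)) (by
    intro x
    exact hFM x.2)
  exact ⟨ϕ.restrictNormal K, fun x => (ϕ.restrictNormal_commutes K x).symm⟩

omit [Algebra ℂ E] [IsScalarTower ℂ K E] in
theorem exists_lift {F : IntermediateField ℂ K} (hF : F₀ ≤ F) [Normal F₀ E] (τ : K ≃ₐ[F] K) :
    ∃ σ : E ≃ₐ[F₀] E, ∀ x, σ (algebraMap K E x) = algebraMap K E (τ x) := by
  let χ : K ≃ₐ[F₀] K := AlgEquiv.ofRingEquiv (f := (τ : K ≃+* K)) (by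
    intro x
    exact τ.commutes ⟨x.1, hF x.2⟩)
  exact ⟨χ.liftNormal E, fun x => χ.liftNormal_commutes E x⟩

end

open scoped Classical in
theorem core {K : Type} [Field K] [Algebra ℂ K] {F F₀ : IntermediateField ℂ K} {δ ν : K}
    (hF : F = F₀ ⊔ IntermediateField.adjoin ℂ ({δ, ν} : Set K)) (hδ : δ ≠ 0) (hν : ν ≠ 0)
    (hδ2 : δ ^ 2 ∈ F₀) (hν2 : ν ^ 2 ∈ F₀) (e0 : Emb F₀)
    (e1 : Emb (F₀ ⊔ IntermediateField.adjoin ℂ ({δ} : Set K)))
    (e2 : Emb (F₀ ⊔ IntermediateField.adjoin ℂ ({ν} : Set K)))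
    (e3 : Emb (F₀ ⊔ IntermediateField.adjoin ℂ ({δ * ν} : Set K))) [Normal F K] [Fintype (K ≃ₐ[F] K)]
    (E : Type) [Field E] [Algebra ℂ E] [Algebra K E] [IsScalarTower ℂ K E]
    [FiniteDimensional F₀ E] [IsGalois F₀ E] {N : ℕ} (ξ : Fin (N + 1) → K)
    (hξ : ξ ≠ 0) :
    Con (fun σ : K ≃ₐ[F] K => (σ.restrictScalars ℂ : K ≃ₐ[ℂ] K)) (fun _ => 1) ξ := by
  have hcharE : CharZero E := charZero_of_C E
  let _ : Fintype (E ≃ₐ[F₀] E) := Fintype.ofFinite _
  have hF₀F : F₀ ≤ F := by rw [hF]; exact le_sup_left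
  obtain ⟨i₀, hi₀⟩ := Function.ne_iff.1 hξ
  have hinjE : Function.Injective (algebraMap K E) := (algebraMap K E).injective
  have hcomm : SMulCommClass (E ≃ₐ[F₀] E) ℂ E := by
    refine ⟨fun σ c x => ?_⟩
    change σ (c • x) = c • σ x
    rw [Algebra.smul_def, Algebra.smul_def, map_mul]
    congr 1
    have e : algebraMap ℂ E c = algebraMap F₀ E (algebraMap ℂ F₀ c) := by
      rw [IsScalarTower.algebraMap_apply F₀ K E, IsScalarTower.algebraMap_apply ℂ K E]
      rfl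
    rw [e, σ.commutes]
  have hsq : ∀ (σ : E ≃ₐ[F₀] E) (x : K), x ^ 2 ∈ F₀ → σ (algebraMap K E x) = algebraMap K E x ∨
      σ (algebraMap K E x) = - algebraMap K E x := by
    intro σ x hx
    apply sq_eq_sq_iff_eq_or_eq_neg.1
    rw [← map_pow, ← map_pow]
    have e : algebraMap K E (x ^ 2) = algebraMap F₀ E ⟨x ^ 2, hx⟩ := by
      rw [IsScalarTower.algebraMap_apply F₀ K E]
      rfl
    rw [e, σ.commutes]
  have hneg : ∀ x : K, x ≠ 0 → - algebraMap K E x ≠ algebraMap K E x := by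
    intro x hx h
    have h1 : (2 : E) * algebraMap K E x = 0 := by linear_combination -h
    rcases mul_eq_zero.1 h1 with h2 | h2
    · exact two_ne_zero h2
    · exact hx ((map_eq_zero _).1 h2)
  obtain ⟨Sσ, hSσ⟩ : ∃ Sσ : (E ≃ₐ[F₀] E) → Prop, Sσ = fun σ =>
    σ (algebraMap K E δ) = algebraMap K E δ ∧ σ (algebraMap K E ν) = algebraMap K E ν := ⟨_, rfl⟩
  let Γ : (E ≃ₐ[F₀] E) → ℚ := fun σ => if Sσ σ then 2 else 0
  let H : Fin 4 → Subgroup (E ≃ₐ[F₀] E) := ![MulAction.stabilizer _ (algebraMap K E δ),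
    MulAction.stabilizer _ (algebraMap K E ν), MulAction.stabilizer _ (algebraMap K E (δ * ν)), ⊤]
  let c : Fin 4 → ℚ := ![1, 1, 1, -1]
  have hm0 : ∀ σ, σ ∈ H 0 ↔ σ (algebraMap K E δ) = algebraMap K E δ := fun σ =>
    MulAction.mem_stabilizer_iff
  have hm1 : ∀ σ, σ ∈ H 1 ↔ σ (algebraMap K E ν) = algebraMap K E ν := fun σ =>
    MulAction.mem_stabilizer_iff
  have hm2 : ∀ σ, σ ∈ H 2 ↔ σ (algebraMap K E (δ * ν)) = algebraMap K E (δ * ν) := fun σ =>
    MulAction.mem_stabilizer_iff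
  have hm3 : ∀ σ, σ ∈ H 3 := fun σ => Subgroup.mem_top σ
  have hcoef : ∀ σ, ∑ i, (if σ ∈ H i then c i else 0) = Γ σ := by
    intro σ
    rw [Fin.sum_univ_four, if_pos (hm3 σ)]
    simp only [hm0, hm1, hm2, Γ, hSσ]
    have hc0 : c 0 = 1 := rfl
    have hc1 : c 1 = 1 := rfl
    have hc2 : c 2 = 1 := rfl
    have hc3 : c 3 = -1 := rfl
    rw [hc0, hc1, hc2, hc3]
    rcases hsq σ δ hδ2 with h1 | h1 <;> rcases hsq σ ν hν2 with h2 | h2
    · rw [if_pos h1, if_pos h2, if_pos (by rw [map_mul, map_mul, h1, h2]), if_pos ⟨h1, h2⟩]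
      norm_num
    · have h3 : ¬ σ (algebraMap K E ν) = algebraMap K E ν := by rw [h2]; exact hneg ν hν
      have h4 : ¬ σ (algebraMap K E (δ * ν)) = algebraMap K E (δ * ν) := by
        rw [map_mul, map_mul, h1, h2, mul_neg, ← map_mul]; exact hneg _ (mul_ne_zero hδ hν)
      rw [if_pos h1, if_neg h3, if_neg h4, if_neg fun h => h3 h.2]
      norm_num
    · have h3 : ¬ σ (algebraMap K E δ) = algebraMap K E δ := by rw [h1]; exact hneg δ hδ
      have h4 : ¬ σ (algebraMap K E (δ * ν)) = algebraMap K E (δ * ν) := by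
        rw [map_mul, map_mul, h1, h2, neg_mul, ← map_mul]; exact hneg _ (mul_ne_zero hδ hν)
      rw [if_neg h3, if_pos h2, if_neg h4, if_neg fun h => h3 h.1]
      norm_num
    · have h3 : ¬ σ (algebraMap K E δ) = algebraMap K E δ := by rw [h1]; exact hneg δ hδ
      have h3' : ¬ σ (algebraMap K E ν) = algebraMap K E ν := by rw [h2]; exact hneg ν hν
      have h4 : σ (algebraMap K E (δ * ν)) = algebraMap K E (δ * ν) := by
        rw [map_mul, map_mul, h1, h2, neg_mul_neg]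
      rw [if_neg h3, if_neg h3', if_pos h4, if_neg fun h => h3 h.1]
      norm_num
  have huni : ∀ i, ∃ (m : ℕ) (j : FixedPoints.subalgebra ℂ E (H i) →ₐ[ℂ] FractionRing (PR m)),
      Function.Injective j := by
    intro i
    have hmem : ∀ x : K, x ∈ F₀ ⊔ IntermediateField.adjoin ℂ ({x} : Set K) := fun x =>
      (le_sup_right : IntermediateField.adjoin ℂ ({x} : Set K) ≤ _)
        (IntermediateField.mem_adjoin_simple_self ℂ x)
    fin_cases i
    · exact fix_emb δ _ le_sup_left (hmem δ) e1 (H 0) (fun σ h => (hm0 σ).2 h)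
    · exact fix_emb ν _ le_sup_left (hmem ν) e2 (H 1) (fun σ h => (hm1 σ).2 h)
    · exact fix_emb (δ * ν) _ le_sup_left (hmem (δ * ν)) e3 (H 2) (fun σ h => (hm2 σ).2 h)
    · exact fix_emb 1 F₀ le_rfl (one_mem _) e0 (H 3) (fun σ _ => hm3 σ)
  obtain ⟨B, hB, hBfg, hmain⟩ := machine_corr (K := E) (E ≃ₐ[F₀] E) Γ H c hcoef huni
    (fun i => algebraMap K E (ξ i))
  -- restriction
  have hres : ∀ σ : E ≃ₐ[F₀] E, ∃ τ : K ≃ₐ[F] K, Sσ σ → ∀ x, σ (algebraMap K E x) = algebraMap K E (τ x) := by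
    intro σ
    by_cases h : Sσ σ
    · have h' := h
      rw [hSσ] at h'
      obtain ⟨τ, hτ⟩ := exists_restrict (E := E) hF σ h'.1 h'.2
      exact ⟨τ, fun _ => hτ⟩
    · exact ⟨1, fun h' => absurd h' h⟩
  choose f hf using hres
  have huniq : ∀ (σ : E ≃ₐ[F₀] E) (τ : K ≃ₐ[F] K), (∀ x, σ (algebraMap K E x) = algebraMap K E (τ x)) ↔
      (Sσ σ ∧ f σ = τ) := by
    intro σ τ
    constructor
    · intro h
      have hδF : δ ∈ F := by
        rw [hF]
        exact (le_sup_right : IntermediateField.adjoin ℂ ({δ, ν} : Set K) ≤ _)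
          (IntermediateField.subset_adjoin ℂ _ (Or.inl rfl))
      have hνF : ν ∈ F := by
        rw [hF]
        exact (le_sup_right : IntermediateField.adjoin ℂ ({δ, ν} : Set K) ≤ _)
          (IntermediateField.subset_adjoin ℂ _ (Or.inr rfl))
      have hS : Sσ σ := by
        rw [hSσ]
        refine ⟨?_, ?_⟩
        · rw [h]; congr 1; exact τ.commutes ⟨δ, hδF⟩
        · rw [h]; congr 1; exact τ.commutes ⟨ν, hνF⟩
      refine ⟨hS, ?_⟩
      ext x
      apply hinjE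
      rw [← hf σ hS x, h x]
    · rintro ⟨hS, rfl⟩
      exact hf σ hS
  -- the fibres
  obtain ⟨n, hn⟩ : ∃ n : ℕ, n = (Finset.univ.filter fun σ : E ≃ₐ[F₀] E => Sσ σ ∧ f σ = 1).card := ⟨_, rfl⟩
  have hn0 : n ≠ 0 := by
    rw [hn]
    apply (Finset.card_pos.2 ⟨1, _⟩).ne'
    rw [Finset.mem_filter]
    refine ⟨Finset.mem_univ _, (huniq 1 1).1 fun x => rfl⟩
  have hfib : ∀ τ : K ≃ₐ[F] K, (Finset.univ.filter fun σ : E ≃ₐ[F₀] E => Sσ σ ∧ f σ = τ).card = n := by
    intro τ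
    obtain ⟨σ₀, hσ₀⟩ := exists_lift (E := E) hF₀F τ
    rw [hn]
    symm
    apply Finset.card_bij (fun σ _ => σ₀ * σ)
    · intro σ hσ
      rw [Finset.mem_filter, ← huniq] at hσ ⊢
      refine ⟨Finset.mem_univ _, fun x => ?_⟩
      change σ₀ (σ (algebraMap K E x)) = _
      rw [hσ.2]
      exact hσ₀ x
    · intro σ _ σ' _ h
      exact mul_left_cancel h
    · intro σ hσ
      refine ⟨σ₀⁻¹ * σ, ?_, mul_inv_cancel_left σ₀ σ⟩
      rw [Finset.mem_filter, ← huniq] at hσ ⊢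
      refine ⟨Finset.mem_univ _, fun x => ?_⟩
      change σ₀⁻¹ (σ (algebraMap K E x)) = algebraMap K E x
      rw [hσ.2, ← hσ₀]
      exact σ₀.symm_apply_apply _
  have hsum : ∀ {V : Type} [AddCommGroup V] [Module ℚ V] (g : (K ≃ₐ[F] K) → V) (g' : (E ≃ₐ[F₀] E) → V),
      (∀ σ, Sσ σ → g' σ = g (f σ)) → ∑ σ, Γ σ • g' σ = (2 * n : ℚ) • ∑ τ, (1 : ℚ) • g τ := by
    intro V _ _ g g' hg
    have h1 : ∀ σ, Γ σ • g' σ = ∑ τ : K ≃ₐ[F] K, if Sσ σ ∧ f σ = τ then (2 : ℚ) • g τ else 0 := by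
      intro σ
      by_cases hS : Sσ σ
      · rw [Finset.sum_eq_single (f σ)]
        · rw [if_pos ⟨hS, rfl⟩]
          simp only [Γ]
          rw [if_pos hS, hg σ hS]
        · intro τ _ hτ
          rw [if_neg fun h => hτ h.2.symm]
        · intro h; exact absurd (Finset.mem_univ _) h
      · simp only [Γ]
        rw [if_neg hS, zero_smul]
        symm
        apply Finset.sum_eq_zero
        intro τ _
        rw [if_neg fun h => hS h.1]
    rw [Finset.sum_congr rfl fun σ _ => h1 σ, Finset.sum_comm, Finset.smul_sum]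
    refine Finset.sum_congr rfl fun τ _ => ?_
    rw [← Finset.sum_filter, Finset.sum_const, hfib τ, one_smul, mul_comm, mul_smul, Nat.cast_smul_eq_nsmul]
  -- the algebras
  let ιC : K →ₐ[ℂ] E := IsScalarTower.toAlgHom ℂ K E
  obtain ⟨B₀, hB₀⟩ : ∃ B₀ : Subalgebra ℂ K,
    B₀ = Algebra.adjoin ℂ (Set.range fun p : (K ≃ₐ[F] K) × Fin (N + 1) => p.1 (ξ p.2)) := ⟨_, rfl⟩
  have hB₀mem : ∀ (τ : K ≃ₐ[F] K) i, τ (ξ i) ∈ B₀ := by
    intro τ i
    rw [hB₀]
    exact Algebra.subset_adjoin ⟨(τ, i), rfl⟩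
  have hB₀fg : B₀.FG := by
    rw [hB₀]
    exact Subalgebra.fg_def.2 ⟨_, Set.finite_range _, rfl⟩
  obtain ⟨L, hL⟩ : ∃ L : Subalgebra ℂ E, L = B₀.map ιC ⊔ B := ⟨_, rfl⟩
  have hLfg : L.FG := by
    rw [hL]
    exact (hB₀fg.map ιC).sup hBfg
  have hBL : B ≤ L := by rw [hL]; exact le_sup_right
  have hB₀L : ∀ b : B₀, algebraMap K E b ∈ L := by
    intro b
    rw [hL]
    exact (le_sup_left : B₀.map ιC ≤ _) ⟨b, b.2, rfl⟩
  have hft1 : Algebra.FiniteType ℂ B₀ := by
    rw [← Subalgebra.fg_iff_finiteType]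
    exact hB₀fg
  have hft2 : Algebra.FiniteType ℂ L := by
    rw [← Subalgebra.fg_iff_finiteType]
    exact hLfg
  let j : B₀ →ₐ[ℂ] L := (ιC.comp B₀.val).codRestrict L hB₀L
  have hj : Function.Injective j := by
    intro a b hab
    have h1 : algebraMap K E a = algebraMap K E b := congrArg Subtype.val hab
    exact Subtype.ext (hinjE h1)
  have hσL : ∀ (σ : E ≃ₐ[F₀] E) i, σ (algebraMap K E (ξ i)) ∈ L := fun σ i => hBL (hB σ i)
  obtain ⟨D, hD⟩ : ∃ D : L, D = ∏ σ : E ≃ₐ[F₀] E, (⟨σ (algebraMap K E (ξ i₀)), hσL σ i₀⟩ : L) := ⟨_, rfl⟩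
  have hD0 : D ≠ 0 := by
    rw [hD]
    apply Finset.prod_ne_zero_iff.2
    intro σ _ h
    have h1 : σ (algebraMap K E (ξ i₀)) = 0 := congrArg Subtype.val h
    rw [map_eq_zero, map_eq_zero] at h1
    exact hi₀ h1
  obtain ⟨h, hh0, hext⟩ := generic_ext j hj D hD0
  obtain ⟨B', hB'⟩ : ∃ B' : Subalgebra ℂ K, B' = B₀ ⊔ Algebra.adjoin ℂ {((h : K))⁻¹} := ⟨_, rfl⟩
  have hAB : B₀ ≤ B' := by
    rw [hB']
    exact le_sup_left
  have hinv : ((h : K))⁻¹ ∈ B' := by
    rw [hB']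
    exact (le_sup_right : Algebra.adjoin ℂ {((h : K))⁻¹} ≤ _)
      (Algebra.subset_adjoin (Set.mem_singleton _))
  refine ⟨B', fun σ i => hAB (hB₀mem σ i), ?_, ?_⟩
  · rw [hB']
    exact hB₀fg.sup (Subalgebra.fg_def.2 ⟨_, Set.finite_singleton _, rfl⟩)
  intro Y hξY φ φ' p p' hp hp'
  have hYE : Y.OnCone (fun i => algebraMap K E (ξ i)) := hξY.map ιC
  have hns : ∀ ψ : B' →ₐ[ℂ] ℂ, ψ (Subalgebra.inclusion hAB h) ≠ 0 := by
    intro ψ hψ
    have h1 : Subalgebra.inclusion hAB h * ⟨_, hinv⟩ = 1 := by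
      apply Subtype.ext
      change (h : K) * ((h : K))⁻¹ = 1
      exact mul_inv_cancel₀ fun h2 => hh0 (Subtype.ext h2)
    have h2 := congrArg ψ h1
    rw [map_mul, hψ, zero_mul, map_one] at h2
    exact zero_ne_one h2
  have key : ∀ (ψ : B' →ₐ[ℂ] ℂ) (r : (K ≃ₐ[F] K) → Y.Pts ℂ),
      (∀ τ i, (r τ).1 i = ψ ⟨τ (ξ i), hAB (hB₀mem τ i)⟩) →
      ∃ (l : B →ₐ[ℂ] ℂ) (q : (E ≃ₐ[F₀] E) → Y.Pts ℂ), (∀ σ i, (q σ).1 i = l ⟨σ • algebraMap K E (ξ i), hB σ i⟩) ∧
        ∑ σ, Γ σ • cls (q σ) = (2 * n : ℚ) • ∑ τ, (1 : ℚ) • cls (r τ) := by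
    intro ψ r hr
    obtain ⟨l, hl1, hl2⟩ := hext (ψ.comp (Subalgebra.inclusion hAB)) (hns ψ)
    have hlσ : ∀ σ, l ⟨σ (algebraMap K E (ξ i₀)), hσL σ i₀⟩ ≠ 0 := by
      intro σ h0
      apply hl2
      rw [hD, map_prod]
      exact Finset.prod_eq_zero (Finset.mem_univ σ) h0
    have hq : ∀ σ : E ≃ₐ[F₀] E, (fun i => l ⟨σ (algebraMap K E (ξ i)), hσL σ i⟩) ∈ Y.Pts ℂ := by
      intro σ
      refine ⟨fun h0 => hlσ σ (congrFun h0 i₀), ?_⟩
      have h1 : Y.OnCone (fun i => σ (algebraMap K E (ξ i))) := by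
        have hc : ∀ z : ℂ, σ (algebraMap ℂ E z) = algebraMap ℂ E z := by
          intro z
          have e : algebraMap ℂ E z = algebraMap F₀ E (algebraMap ℂ F₀ z) := by
            rw [IsScalarTower.algebraMap_apply F₀ K E, IsScalarTower.algebraMap_apply ℂ K E]
            rfl
          rw [e, σ.commutes]
        let σC : E →ₐ[ℂ] E := { (σ : E →+* E) with commutes' := hc }
        exact hYE.map σC
      have h2 : Y.OnCone (fun i => (⟨σ (algebraMap K E (ξ i)), hσL σ i⟩ : L)) :=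
        ProjVar.OnCone.of_injective L.val Subtype.val_injective h1
      exact h2.map l
    refine ⟨l.comp (Subalgebra.inclusion hBL), fun σ => ⟨_, hq σ⟩, fun σ i => rfl, ?_⟩
    refine hsum (fun τ => cls (r τ)) (fun σ => cls (⟨_, hq σ⟩ : Y.Pts ℂ)) ?_
    intro σ hS
    congr 1
    apply Subtype.ext
    funext i
    rw [hr]
    have h1 : (⟨σ (algebraMap K E (ξ i)), hσL σ i⟩ : L) = j ⟨f σ (ξ i), hB₀mem (f σ) i⟩ := by
      apply Subtype.ext
      exact hf σ hS (ξ i)
    change l ⟨σ (algebraMap K E (ξ i)), hσL σ i⟩ = _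
    rw [h1, hl1]
    rfl
  obtain ⟨l, q, hq, hs⟩ := key φ p hp
  obtain ⟨l', q', hq', hs'⟩ := key φ' p' hp'
  have h1 := hmain Y hYE l l' q q' hq hq'
  rw [hs, hs'] at h1
  have h2 : (2 * n : ℚ) ≠ 0 := by positivity
  exact smul_right_injective _ h2 h1

theorem fin_F₀ {K : Type} [Field K] [Algebra ℂ K] {F F₀ : IntermediateField ℂ K} {δ ν : K}
    (hF : F = F₀ ⊔ IntermediateField.adjoin ℂ ({δ, ν} : Set K)) (hδ2 : δ ^ 2 ∈ F₀) (hν2 : ν ^ 2 ∈ F₀)
    [FiniteDimensional F K] : FiniteDimensional F₀ K := by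
  have hF₀F : F₀ ≤ F := by rw [hF]; exact le_sup_left
  have hint : ∀ x : K, x ^ 2 ∈ F₀ → IsIntegral F₀ x := by
    intro x hx
    have h1 : IsIntegral F₀ (x ^ 2) := isIntegral_algebraMap (x := (⟨x ^ 2, hx⟩ : F₀))
    exact IsIntegral.of_pow two_pos h1
  have h1 : FiniteDimensional F₀ (IntermediateField.adjoin F₀ ({δ, ν} : Set K)) := by
    apply IntermediateField.finiteDimensional_adjoin
    rintro x (rfl | hx)
    · exact hint _ hδ2
    · rw [Set.mem_singleton_iff] at hx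
      subst hx
      exact hint _ hν2
  have hle : ∀ x ∈ F, x ∈ IntermediateField.adjoin F₀ ({δ, ν} : Set K) := by
    have h2 : F ≤ (IntermediateField.adjoin F₀ ({δ, ν} : Set K)).restrictScalars ℂ := by
      rw [hF]
      apply sup_le
      · intro x hx
        exact (IntermediateField.adjoin F₀ ({δ, ν} : Set K)).algebraMap_mem ⟨x, hx⟩
      · rw [IntermediateField.adjoin_le_iff]
        intro x hx
        exact IntermediateField.subset_adjoin F₀ _ hx
    exact fun x hx => h2 hx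
  letI : Algebra F₀ F := (IntermediateField.inclusion hF₀F).toRingHom.toAlgebra
  haveI : IsScalarTower F₀ F K := IsScalarTower.of_algebraMap_eq' rfl
  have h3 : Module.Finite F₀ F := by
    let g : F →ₗ[F₀] (IntermediateField.adjoin F₀ ({δ, ν} : Set K)) :=
      { toFun := fun x => ⟨x.1, hle x.1 x.2⟩
        map_add' := fun x y => rfl
        map_smul' := fun c x => by
          apply Subtype.ext
          change ((c • x : F) : K) = c • (x : K)
          rw [Algebra.smul_def, Algebra.smul_def]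
          rfl }
    refine FiniteDimensional.of_injective g ?_
    intro x y hxy
    have h4 : ((g x : IntermediateField.adjoin F₀ ({δ, ν} : Set K)) : K) = g y := by rw [hxy]
    exact Subtype.ext h4
  exact Module.Finite.trans F K

theorem exE {K : Type} [Field K] [Algebra ℂ K] {F₀ : IntermediateField ℂ K} [hfd : FiniteDimensional F₀ K] :
    ∃ (E : Type) (_ : Field E) (_ : Algebra ℂ E) (_ : Algebra K E) (_ : IsScalarTower ℂ K E),
      FiniteDimensional F₀ E ∧ IsGalois F₀ E := by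
  have hchar : CharZero K := charZero_of_C K
  have hcharF₀ : CharZero F₀ := charZero_of_C F₀
  have halg : Algebra.IsAlgebraic F₀ K := Algebra.IsAlgebraic.of_finite F₀ K
  have halg2 : Algebra.IsAlgebraic F₀ (AlgebraicClosure K) := Algebra.IsAlgebraic.trans F₀ K (AlgebraicClosure K)
  have hn : Normal F₀ (AlgebraicClosure K) :=
    normal_iff.2 fun x => ⟨(halg2.isAlgebraic x).isIntegral, IsAlgClosed.splits _⟩
  let E := ↥(IntermediateField.normalClosure F₀ K (AlgebraicClosure K))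
  have h1 : IsScalarTower ℂ K E := IsScalarTower.of_algebraMap_eq fun x => rfl
  refine ⟨E, inferInstance, inferInstance, inferInstance, h1, ?_, ?_⟩
  · exact normalClosure.is_finiteDimensional F₀ K (AlgebraicClosure K)
  · have h2 : Normal F₀ E := normalClosure.normal F₀ K (AlgebraicClosure K)
    have h4 : FiniteDimensional F₀ E := normalClosure.is_finiteDimensional F₀ K (AlgebraicClosure K)
    have h5 : Algebra.IsAlgebraic F₀ E := Algebra.IsAlgebraic.of_finite F₀ E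
    have h3 : Algebra.IsSeparable F₀ E := Algebra.IsAlgebraic.isSeparable_of_perfectField
    exact @IsGalois.mk _ _ _ _ _ h3 h2

open scoped Classical in
theorem t_MACH2 : S_MACH2 := by
  intro K _ _ F F₀ δ ν hF hδ hν hδ2 hν2 e0 e1 e2 e3 hfin hgal _ N ξ
  by_cases hξ : ξ = 0
  · -- no points
    subst hξ
    refine ⟨⊥, fun σ i => ?_, ?_, ?_⟩
    · change σ 0 ∈ _
      rw [map_zero]
      exact zero_mem _
    · exact Subalgebra.fg_bot
    · intro Y _ φ φ' p p' hp _
      exfalso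
      apply (p 1).2.1
      funext i
      rw [hp]
      exact map_zero φ
  · have hfd : FiniteDimensional F₀ K := fin_F₀ hF hδ2 hν2
    have hn : Normal F K := hgal.to_normal
    obtain ⟨E, i1, i2, i3, i4, i5, i6⟩ := exE (K := K) (F₀ := F₀)
    exact core hF hδ hν hδ2 hν2 e0 e1 e2 e3 E ξ hξ

end Pool.Agent.J4H67.LC
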